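import Pool.Agent.N126.IS.Stm

/-!
Generic forms.
-/

set_option autoImplicit false

open Pool.Agent.W602.GT LinearAlgebra.Projectivization MvPolynomial
open Pool.Agent.N126.IS

namespace Pool.Agent.N697.IS

/-- Algebraic independence is preserved by invertible polynomial substitutions. -/
theorem algInd_subst {R A ι : Type} [CommRing R] [CommRing A] [Algebra R A] {x : ι → A}
    (hx : AlgebraicIndependent R x) (p q : ι → MvPolynomial ι R)
    (h : ∀ i, bind₁ q (p i) = X i) : AlgebraicIndependent R (fun i => aeval x (p i)) := by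
  have h1 : aeval (fun i => aeval x (p i)) = (aeval x).comp (bind₁ p) := by
    apply MvPolynomial.algHom_ext
    intro i
    simp
  have h2 : (bind₁ q).comp (bind₁ p) = AlgHom.id R (MvPolynomial ι R) := by
    apply MvPolynomial.algHom_ext
    intro i
    simp [h]
  unfold AlgebraicIndependent
  rw [h1]
  refine Function.Injective.comp (g := aeval x) (f := bind₁ p) hx ?_
  apply Function.LeftInverse.injective (g := bind₁ q)
  intro f
  exact congrArg (fun φ : MvPolynomial ι R →ₐ[R] MvPolynomial ι R => φ f) h2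

/-- A field `k` between `k0` and `K2` such that `z` is in `k` and `K2` is algebraic over `k(s)`. -/
theorem exists_mid (k0 K2 : Type) [Field k0] [Field K2] [IsAlgClosed K2] [Algebra k0 K2]
    {ι : Type} (z : ι → K2) (s : K2)
    (h : AlgebraicIndependent k0 (Sum.elim z (fun _ : Unit => s))) :
    ∃ (k : Type) (_ : Field k) (_ : IsAlgClosed k) (_ : Algebra k0 k) (_ : Algebra k K2),
      IsScalarTower k0 k K2 ∧ (∀ i, ∃ a : k, algebraMap k K2 a = z i) ∧ Transcendental k s ∧
        Algebra.trdeg k K2 = 1 := by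
  classical
  have hset : AlgebraicIndepOn k0 (id : K2 → K2) (Set.range (Sum.elim z (fun _ : Unit => s))) :=
    h.coe_range
  obtain ⟨B, hB, hb⟩ := exists_isTranscendenceBasis_superset hset
  have hs : s ∈ B := hB ⟨Sum.inr (), rfl⟩
  have hz : ∀ i, z i ∈ B := fun i => hB ⟨Sum.inl i, rfl⟩
  have hzs : ∀ i, z i ≠ s := by
    intro i hi
    have : (Sum.inl i : ι ⊕ Unit) = Sum.inr () := h.injective hi
    exact Sum.inl_ne_inr this
  set B' : Set K2 := B \ {s} with hB'
  have hins : insert s B' = B := by
    rw [hB', Set.insert_sdiff_singleton]; exact Set.insert_eq_of_mem hs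
  have hsB' : s ∉ B' := fun h => h.2 rfl
  let F1 : IntermediateField k0 K2 := IntermediateField.adjoin k0 B'
  let k : IntermediateField F1 K2 := algebraicClosure F1 K2
  have hcl : IsAlgClosed k := (algebraicClosure.isAlgClosure F1 K2).isAlgClosed
  have htow : IsScalarTower k0 k K2 := IsScalarTower.of_algebraMap_eq (fun _ => rfl)
  have hmem : ∀ x ∈ B', ∃ a : k, algebraMap k K2 a = x := by
    intro x hx
    have h1 : x ∈ F1 := IntermediateField.subset_adjoin k0 B' hx
    exact ⟨algebraMap F1 k ⟨x, h1⟩, rfl⟩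
  -- `s` is transcendental
  have ht1 : Transcendental (Algebra.adjoin k0 B') s := by
    have h1 : AlgebraicIndepOn k0 (id : K2 → K2) (insert s B') := by
      rw [hins]; exact hb.1
    have h2 := ((AlgebraicIndepOn.insert_iff hsB').mp h1).2
    rwa [Set.image_id] at h2
  have ht2 : Transcendental F1 s := by
    intro h1
    exact ht1 (IntermediateField.isAlgebraic_adjoin_iff.mp h1)
  have ht : Transcendental k s := by
    intro h1
    exact ht2 (h1.restrictScalars F1)
  refine ⟨k, inferInstance, hcl, inferInstance, inferInstance, htow, ?_, ht, ?_⟩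
  · intro i
    exact hmem _ ⟨hz i, fun h => hzs i h⟩
  · -- transcendence degree
    have hai : AlgebraicIndependent k (fun _ : Unit => s) := by
      rw [algebraicIndependent_unique_type_iff]; exact ht
    have hbas : IsTranscendenceBasis k (fun _ : Unit => s) := by
      rw [isTranscendenceBasis_iff_algebraicIndependent_isAlgebraic]
      refine ⟨hai, ?_⟩
      let S := Algebra.adjoin k (Set.range fun _ : Unit => s)
      change Algebra.IsAlgebraic S K2
      let i1 : Algebra k0 S := ((algebraMap k S).comp (algebraMap k0 k)).toAlgebra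
      have i2 : IsScalarTower k0 S K2 := IsScalarTower.of_algebraMap_eq (fun _ => rfl)
      rw [hb.isAlgebraic_iff (S := S)]
      rintro ⟨x, hx⟩
      by_cases hxs : x = s
      · exact isAlgebraic_algebraMap (⟨x, Algebra.subset_adjoin ⟨(), hxs.symm⟩⟩ : S)
      · obtain ⟨a, ha⟩ := hmem x ⟨hx, hxs⟩
        have : algebraMap S K2 (algebraMap k S a) = x := ha
        change IsAlgebraic S x
        rw [← this]
        exact isAlgebraic_algebraMap _
    rw [← hbas.cardinalMk_eq_trdeg]
    simp

/-- a large algebraically closed extension -/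
theorem exists_ext (k0 K : Type) [Field k0] [Field K] [Algebra k0 K] (σ : Type) :
    ∃ (K2 : Type) (_ : Field K2) (_ : IsAlgClosed K2) (_ : Algebra K K2) (_ : Algebra k0 K2)
      (y : σ → K2), IsScalarTower k0 K K2 ∧ AlgebraicIndependent K y := by
  let K1 := FractionRing (MvPolynomial σ K)
  let K2 := AlgebraicClosure K1
  let f : MvPolynomial σ K →+* K2 := (algebraMap K1 K2).comp (algebraMap (MvPolynomial σ K) K1)
  let a1 : Algebra K K2 := (f.comp C).toAlgebra
  let a2 : Algebra k0 K2 := ((f.comp C).comp (algebraMap k0 K)).toAlgebra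
  have hf : Function.Injective f :=
    (algebraMap K1 K2).injective.comp (IsFractionRing.injective (MvPolynomial σ K) K1)
  let F : MvPolynomial σ K →ₐ[K] K2 := { f with commutes' := fun _ => rfl }
  refine ⟨K2, inferInstance, inferInstance, a1, a2, fun i => f (X i),
    IsScalarTower.of_algebraMap_eq (fun _ => rfl), ?_⟩
  have h1 := (algebraicIndependent_X σ K).map' (f := F) hf
  exact h1

/-- Descent of finiteness to a subfield. -/
theorem finPts_descend (k0 k K K2 : Type) [Field k0] [Field k] [Field K] [Field K2] [Algebra k0 K]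
    [Algebra k0 k] [Algebra k K2] [Algebra K K2] [Algebra k0 K2] [IsScalarTower k0 K K2]
    [IsScalarTower k0 k K2] {n : ℕ} (V : Set (Fin (n + 1) → K)) (V2 : Set (Fin (n + 1) → K2))
    (hV : ∀ x ∈ V, (fun i => algebraMap K K2 (x i)) ∈ V2) (h : FinPts k V2) : FinPts k0 V := by
  classical
  intro T
  have ne2 : ∀ x : Fin (n + 1) → K, x ≠ 0 → (fun i => algebraMap K K2 (x i)) ≠ 0 := by
    intro x hx h0
    apply hx
    funext i
    have := congrFun h0 i
    exact (map_eq_zero (algebraMap K K2)).mp this
  let f : ℙ K (Fin (n + 1) → K) → ℙ K2 (Fin (n + 1) → K2) := fun p =>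
    Projectivization.mk K2 (fun i => algebraMap K K2 (p.rep i)) (ne2 _ p.rep_nonzero)
  refine Set.Finite.of_injOn (f := f) (t := PtsOver k V2 (T.image (algebraMap K K2))) ?_ ?_
    (h _)
  · rintro _ ⟨x, hxV, hxT, hx, rfl⟩
    refine ⟨_, hV x hxV, ?_, ne2 x hx, ?_⟩
    · intro i
      let g : K →ₐ[k0] K2 := IsScalarTower.toAlgHom k0 K K2
      have h1 : algebraMap K K2 (x i) ∈ (IntermediateField.adjoin k0 (T : Set K)).map g :=
        ⟨x i, hxT i, rfl⟩
      rw [IntermediateField.adjoin_map] at h1
      have h2 : IntermediateField.adjoin k0 (g '' (T : Set K)) ≤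
          (IntermediateField.adjoin k ((T.image (algebraMap K K2) : Finset K2) : Set K2)
            ).restrictScalars k0 := by
        rw [IntermediateField.adjoin_le_iff]
        rintro _ ⟨t, ht, rfl⟩
        change algebraMap K K2 t ∈ IntermediateField.adjoin k _
        apply IntermediateField.subset_adjoin
        rw [Finset.coe_image]
        exact ⟨t, ht, rfl⟩
      exact h2 h1
    · obtain ⟨a, ha⟩ := Projectivization.exists_smul_eq_mk_rep K x hx
      change Projectivization.mk K2 _ _ = _
      rw [Projectivization.mk_eq_mk_iff']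
      refine ⟨algebraMap K K2 (a : K), ?_⟩
      funext i
      rw [← ha]
      simp [Units.smul_def]
  · intro p _ p' _ hpp
    change Projectivization.mk K2 _ _ = Projectivization.mk K2 _ _ at hpp
    rw [Projectivization.mk_eq_mk_iff'] at hpp
    obtain ⟨a, ha⟩ := hpp
    obtain ⟨i, hi⟩ : ∃ i, p'.rep i ≠ 0 := by
      by_contra hcon
      push Not at hcon
      exact p'.rep_nonzero (funext hcon)
    have hi2 : algebraMap K K2 (p'.rep i) ≠ 0 := (map_ne_zero _).mpr hi
    have hi3 : a * algebraMap K K2 (p'.rep i) = algebraMap K K2 (p.rep i) := congrFun ha i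
    have ha2 : a = algebraMap K K2 (p.rep i / p'.rep i) := by
      rw [map_div₀, ← hi3, mul_div_cancel_right₀ _ hi2]
    rw [← p.mk_rep, ← p'.mk_rep, Projectivization.mk_eq_mk_iff']
    refine ⟨p.rep i / p'.rep i, ?_⟩
    funext j
    have hj : a * algebraMap K K2 (p'.rep j) = algebraMap K K2 (p.rep j) := congrFun ha j
    rw [ha2, ← map_mul] at hj
    exact (algebraMap K K2).injective hj

/-- the exponents of the monomials of degree `D` -/
def expT (n D : ℕ) : Finset (Fin (n + 1) →₀ ℕ) :=
  (Finset.univ : Finset (Fin (n + 1))).finsuppAntidiag D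

theorem mem_expT {n D : ℕ} {I : Fin (n + 1) →₀ ℕ} : I ∈ expT n D ↔ I.degree = D := by
  rw [expT, Finset.mem_finsuppAntidiag, Finsupp.degree_eq_sum]
  simp

theorem card_expT (n D : ℕ) : (expT n D).card = Nat.choose (n + D) n := by
  rw [expT, Finset.card_finsuppAntidiag_nat_eq_choose, Finset.card_univ, Fintype.card_fin]
  have : n + 1 + D - 1 = n + D := by omega
  rw [this]
  exact (Nat.choose_symm_add).symm

instance finite_Mon (n D : ℕ) : Finite (Mon n D) :=
  Finsupp.finite_of_degree_eq D

theorem aeval_map {K K2 : Type} [Field K] [Field K2] [Algebra K K2] {n : ℕ}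
    (x : Fin (n + 1) → K) (G : MvPolynomial (Fin (n + 1)) K) :
    aeval (fun i => algebraMap K K2 (x i)) (map (algebraMap K K2) G) =
      algebraMap K K2 (aeval x G) := by
  induction G using MvPolynomial.induction_on with
  | C a => simp
  | add p q hp hq => rw [map_add, map_add, map_add, map_add, hp, hq]
  | mul_X p i hp => rw [map_mul, map_mul, map_mul, map_mul, hp]; simp

/-- the index set of the coefficients of the family and of the parameter -/
abbrev Ix (n D M : ℕ) : Type := (Fin (M + 1) × Mon n D) ⊕ Unit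

/-- reordering -/
def ff (n D M : ℕ) : Ix n D M → ((Fin M × Mon n D) ⊕ Unit) ⊕ Mon n D :=
  Sum.elim (fun q => Fin.cases (Sum.inr q.2) (fun j => Sum.inl (Sum.inl (j, q.2))) q.1)
    (fun u => Sum.inl (Sum.inr u))

theorem ff_inj (n D M : ℕ) : Function.Injective (ff n D M) := by
  rintro (⟨j, I⟩ | u) (⟨j', I'⟩ | u') h
  · induction j using Fin.cases with
    | zero =>
      induction j' using Fin.cases with
      | zero => simp only [ff, Sum.elim_inl, Fin.cases_zero, Sum.inr.injEq] at h; rw [h]
      | succ j' => simp [ff] at h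
    | succ j =>
      induction j' using Fin.cases with
      | zero => simp [ff] at h
      | succ j' =>
        simp only [ff, Sum.elim_inl, Fin.cases_succ, Sum.inl.injEq, Prod.mk.injEq] at h
        rw [h.1, h.2]
  · induction j using Fin.cases with
    | zero => simp [ff] at h
    | succ j => simp [ff] at h
  · induction j' using Fin.cases with
    | zero => simp [ff] at h
    | succ j => simp [ff] at h
  · rfl

/-- the substitution -/
noncomputable def pp (R : Type) [CommRing R] (ε : R) (n D M : ℕ) :
    Ix n D M → MvPolynomial (Ix n D M) R :=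
  Sum.elim (fun q => Fin.cases (X (Sum.inl (0, q.2)) + C ε * ∑ j : Fin M,
      X (Sum.inl (j.succ, q.2)) * X (Sum.inr ()) ^ ((j : ℕ) + 1))
      (fun j => X (Sum.inl (j.succ, q.2))) q.1)
    (fun u => X (Sum.inr u))

theorem pp_zero (R : Type) [CommRing R] (ε : R) (n D M : ℕ) (I : Mon n D) :
    pp R ε n D M (Sum.inl (0, I)) = X (Sum.inl (0, I)) + C ε * ∑ j : Fin M,
      X (Sum.inl (j.succ, I)) * X (Sum.inr ()) ^ ((j : ℕ) + 1) := rfl

theorem pp_succ (R : Type) [CommRing R] (ε : R) (n D M : ℕ) (j : Fin M) (I : Mon n D) :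
    pp R ε n D M (Sum.inl (j.succ, I)) = X (Sum.inl (j.succ, I)) := rfl

theorem pp_inr (R : Type) [CommRing R] (ε : R) (n D M : ℕ) (u : Unit) :
    pp R ε n D M (Sum.inr u) = X (Sum.inr u) := rfl

theorem bind_pp (R : Type) [CommRing R] (n D M : ℕ) (i : Ix n D M) :
    bind₁ (pp R 1 n D M) (pp R (-1) n D M i) = X i := by
  rcases i with ⟨j, I⟩ | u
  · induction j using Fin.cases with
    | zero =>
      rw [pp_zero]
      simp only [map_add, map_mul, map_sum, map_pow, bind₁_X_right, pp_zero,
        pp_succ, pp_inr, map_one, map_neg]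
      ring
    | succ j => rw [pp_succ, bind₁_X_right, pp_succ]
  · rw [pp_inr, bind₁_X_right, pp_inr]

theorem gen_aux (h1 : S_MAIN) (h2 : S_FAM) (k0 K : Type) [Field k0] [Field K] [IsAlgClosed K]
    [CharZero K] [Algebra k0 K] (n m D : ℕ) (hD : 2 * n ≤ D) (F : MvPolynomial (Fin (n + 1)) K)
    (hF : F.IsHomogeneous D) (hind : AlgebraicIndependent k0 (fun I : Mon n D => F.coeff I.1))
    (hm : bound n (Nat.choose (n + D) n) < m) :
    FinPts k0 (Cone fun _ : Unit => expand m F) := by
  classical
  obtain ⟨K2, _, _, _, _, y, _, hy⟩ := exists_ext k0 K ((Fin (2 * n) × Mon n D) ⊕ Unit)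
  have : Fintype (Mon n D) := Fintype.ofFinite _
  set s : K2 := y (Sum.inr ()) with hs
  let x : Ix n D (2 * n) → K2 := Sum.elim (fun q => Fin.cases (algebraMap K K2 (F.coeff q.2.1))
    (fun j => y (Sum.inl (j, q.2))) q.1) (fun u => y (Sum.inr u))
  have x0 : ∀ I : Mon n D, x (Sum.inl (0, I)) = algebraMap K K2 (F.coeff I.1) := fun _ => rfl
  have x1 : ∀ (j : Fin (2 * n)) (I : Mon n D), x (Sum.inl (j.succ, I)) = y (Sum.inl (j, I)) :=
    fun _ _ => rfl
  have x2 : x (Sum.inr ()) = s := rfl
  have hx : AlgebraicIndependent k0 x := by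
    have h3 := (hind.sumElim_comp hy).comp (ff n D (2 * n)) (ff_inj n D (2 * n))
    have h4 : x = Sum.elim y (algebraMap K K2 ∘ fun I : Mon n D => F.coeff I.1) ∘
        ff n D (2 * n) := by
      funext i
      rcases i with ⟨j, I⟩ | u
      · induction j using Fin.cases with
        | zero => rfl
        | succ j => rfl
      · rfl
    rw [h4]; exact h3
  have hz := algInd_subst hx (pp k0 (-1) n D (2 * n)) (pp k0 1 n D (2 * n)) (bind_pp k0 n D (2 * n))
  let z : Fin (2 * n + 1) × Mon n D → K2 := fun q => aeval x (pp k0 (-1) n D (2 * n) (Sum.inl q))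
  have hz' : AlgebraicIndependent k0 (Sum.elim z (fun _ : Unit => s)) := by
    have h4 : Sum.elim z (fun _ : Unit => s) = fun i => aeval x (pp k0 (-1) n D (2 * n) i) := by
      funext i
      rcases i with q | u
      · rfl
      · rw [pp_inr, aeval_X]; rfl
    rw [h4]; exact hz
  have z0 : ∀ I : Mon n D, z (0, I) = algebraMap K K2 (F.coeff I.1) -
      ∑ j : Fin (2 * n), y (Sum.inl (j, I)) * s ^ ((j : ℕ) + 1) := by
    intro I
    change aeval x (pp k0 (-1) n D (2 * n) (Sum.inl (0, I))) = _
    rw [pp_zero]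
    simp only [map_add, map_mul, map_sum, map_pow, aeval_X, x0, x1, x2, map_neg, map_one]
    ring
  have z1 : ∀ (j : Fin (2 * n)) (I : Mon n D), z (j.succ, I) = y (Sum.inl (j, I)) := by
    intro j I
    change aeval x (pp k0 (-1) n D (2 * n) (Sum.inl (j.succ, I))) = _
    rw [pp_succ, aeval_X, x1]
  obtain ⟨k, _, _, _, _, htow, hzk, hst, htr⟩ := exists_mid k0 K2 z s hz'
  choose α hα using hzk
  have hαind : AlgebraicIndependent k0 α := by
    apply AlgebraicIndependent.of_comp (IsScalarTower.toAlgHom k0 k K2)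
    have h4 : (IsScalarTower.toAlgHom k0 k K2 : k → K2) ∘ α = Sum.elim z (fun _ : Unit => s) ∘
        Sum.inl := by
      funext q
      exact hα q
    rw [h4]
    exact hz'.comp Sum.inl Sum.inl_injective
  let P : Fin (2 * n + 1) → MvPolynomial (Fin (n + 1)) k := fun j =>
    ∑ I : Mon n D, monomial I.1 (α (j, I))
  have hPc : ∀ (j : Fin (2 * n + 1)) (I : Mon n D), (P j).coeff I.1 = α (j, I) := by
    intro j I
    change coeff I.1 (∑ I : Mon n D, monomial I.1 (α (j, I))) = _
    rw [coeff_sum, Finset.sum_eq_single I]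
    · rw [coeff_monomial, if_pos rfl]
    · intro I' _ hI'
      rw [coeff_monomial, if_neg (fun h => hI' (Subtype.ext h))]
    · intro h; exact absurd (Finset.mem_univ _) h
  have hPh : ∀ j, (P j).IsHomogeneous D := by
    intro j
    apply IsHomogeneous.sum
    intro I _
    exact isHomogeneous_monomial _ I.2
  have hFeq : map (algebraMap K K2) F =
      ∑ j : Fin (2 * n + 1), C (s ^ (j : ℕ)) * map (algebraMap k K2) (P j) := by
    ext I
    rw [coeff_map, coeff_sum]
    simp only [coeff_C_mul, coeff_map]
    by_cases hI : I.degree = D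
    · have h4 : ∀ j : Fin (2 * n + 1), algebraMap k K2 ((P j).coeff I) = z (j, ⟨I, hI⟩) := by
        intro j
        rw [← hα, ← hPc]
      simp only [h4]
      rw [Fin.sum_univ_succ]
      simp only [z0, z1, Fin.val_zero, Fin.val_succ, pow_zero, one_mul]
      rw [Finset.sum_congr rfl fun (j : Fin (2 * n)) _ =>
        mul_comm (s ^ ((j : ℕ) + 1)) (y (Sum.inl (j, ⟨I, hI⟩)))]
      ring
    · rw [hF.coeff_eq_zero hI, map_zero]
      symm
      apply Finset.sum_eq_zero
      intro j _
      rw [(hPh j).coeff_eq_zero hI, map_zero, mul_zero]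
  have hc0 : CharZero k0 := (algebraMap k0 K).charZero
  have hck : CharZero k := charZero_of_injective_algebraMap (algebraMap k0 k).injective
  have hm0 : 0 < m := lt_of_le_of_lt (Nat.zero_le _) hm
  have hft := h2 k0 k K2 s hst htr n D (2 * n) m hD le_rfl hm0 P hPh (by
    have h4 : (fun p : Fin (2 * n + 1) × Mon n D => (P p.1).coeff p.2.1) = α := by
      funext p; exact hPc p.1 p.2
    rw [h4]; exact hαind)
  rw [← hFeq] at hft
  have hfp := h1 k K2 htr n m D Unit Unit (expT n D) (fun _ => map (algebraMap K K2) F)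
    (fun _ => 1) (fun _ => hF.map _) (fun _ I hI => by
      rw [mem_expT]
      by_contra h
      rw [mem_support_iff] at hI
      exact hI ((hF.map (algebraMap K K2)).coeff_eq_zero h))
    (fun _ => ⟨0, isHomogeneous_one _ _⟩) (by rw [card_expT]; exact hm) (by
      intro μ hμ
      refine (hft μ hμ).subset ?_
      rintro p ⟨c, hc, hcV, hp⟩
      exact ⟨c, hc, hcV.1, hp⟩)
  refine finPts_descend k0 k K K2 _ _ ?_ hfp
  rintro v ⟨hv0, hv⟩
  refine ⟨⟨?_, fun _ => ?_⟩, (), ?_⟩
  · intro h0
    apply hv0
    funext i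
    exact (map_eq_zero (algebraMap K K2)).mp (congrFun h0 i)
  · have h5 : aeval v (expand m F) = 0 := hv ()
    change aeval (fun i => algebraMap K K2 (v i)) (expand m (map (algebraMap K K2) F)) = 0
    rw [← map_expand, aeval_map, h5, map_zero]
  · change aeval (fun i => algebraMap K K2 (v i)) (1 : MvPolynomial (Fin (n + 1)) K2) ≠ 0
    rw [map_one]; exact one_ne_zero

/-- **GEN.** -/
theorem main_GEN (h1 : S_MAIN) (h2 : S_FAM) : S_GEN := by
  intro K _ _ _ k0 n m D hD F hF hind hm
  exact gen_aux h1 h2 k0 K n m D hD F hF hind hm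

end Pool.Agent.N697.IS
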